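import Pool.Agent.Helper34.ST.Basic

/-!
# The induction step for narrow blocks
-/

set_option autoImplicit false

namespace Pool.Agent.Helper34.ST

open Finset

theorem step_min (σ : ℕ → Bool) (a ℓ J : ℕ) (h : Rg σ a (a + ℓ) J) :
    ∃ lo : ℤ, ∀ t, a ≤ t → t ≤ a + ℓ → lo ≤ ht σ t ∧ ht σ t ≤ lo + J := by
  obtain ⟨s, hs, hmin⟩ := Finset.exists_min_image (Finset.Icc a (a + ℓ)) (ht σ)
    ⟨a, Finset.mem_Icc.2 ⟨le_rfl, Nat.le_add_right _ _⟩⟩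
  rw [Finset.mem_Icc] at hs
  refine ⟨ht σ s, fun t h1 h2 => ⟨hmin t (Finset.mem_Icc.2 ⟨h1, h2⟩), ?_⟩⟩
  have h3 := h t s h1 h2 hs.1 hs.2
  linarith

/-- the block walk, core of the step -/
theorem step_core (hPH : ST_PH) (hNL : ST_NL) (hEXT : ST_EXT) (hCOSTC : ST_COSTC) (hSTAR : ST_STAR)
    {ι : Type} [Fintype ι] (r : ι → ι → Prop) (J : ℕ) (d : ℝ) (hd : 0 < d) (hw : Wt r d)
    (z : ι → ℝ) (hz : Cst z d) (κ Zm : ℝ) (ℓ : ℕ) (hZ : ∀ i, z i ≤ Zm) (hZ0 : 0 ≤ Zm) (hκ : (ℓ : ℝ) ≤ κ)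
    (hℓ : 1 ≤ ℓ) (hNC : NC r z ℓ J κ) (R : ℕ)
    (hR : ∀ (u v : ℤ → ι) (lo : ℤ), Dir r u → Dir r v → Conn r (J + 1) (u lo) (v lo) →
      ∃ U : ℕ → ℤ → ι, (∀ i, Dir r (U i)) ∧ U 0 = u ∧
        (∀ t, lo ≤ t → t ≤ lo + ((J + 1 : ℕ) : ℤ) → U R t = v t) ∧
        ∀ i, i < R → (Even i → U (i + 1) lo = U i lo) ∧
          (Odd i → U (i + 1) (lo + ((J + 1 : ℕ) : ℤ)) = U i (lo + ((J + 1 : ℕ) : ℤ))))
    (Λ : ℕ) (σ : ℕ → Bool) (u : ℤ → ι) (a : ℕ) (hu : Dir r u) (hRg : Rg σ a (a + Λ * ℓ) (J + 1)) :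
    ∃ W : ℕ → ι, Walk r σ a (a + Λ * ℓ) W ∧ W a = u (ht σ a) ∧ W (a + Λ * ℓ) = u (ht σ (a + Λ * ℓ)) ∧
      cost z W a (a + Λ * ℓ) ≤ Λ * κ + (2 * R + 1) * Zm * ℓ := by
  have hκ0 : 0 ≤ κ := le_trans (Nat.cast_nonneg ℓ) hκ
  have hℓ1 : (1 : ℝ) ≤ (ℓ : ℝ) := by exact_mod_cast hℓ
  have hℓ0 : (0 : ℝ) ≤ (ℓ : ℝ) := by linarith
  obtain ⟨lo, hlo⟩ := step_min σ a (Λ * ℓ) (J + 1) hRg
  have hR0 : (0 : ℝ) ≤ (R : ℝ) := Nat.cast_nonneg R
  have hZℓ : 0 ≤ Zm * (ℓ : ℝ) := mul_nonneg hZ0 hℓ0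
  rcases Nat.lt_or_ge (2 * R) (nfull σ a ℓ J Λ) with hN | hN
  swap
  · -- few full blocks: no switching
    have hb : ∀ t, a ≤ t → t ≤ a + Λ * ℓ → lo ≤ ht σ t ∧ ht σ t ≤ lo + ((J : ℤ) + 1) := by
      intro t h1 h2
      have h3 := hlo t h1 h2
      push_cast at h3
      exact h3
    obtain ⟨W, h1, h2, h3, h4⟩ := hPH ι r z κ Zm ℓ J hz.1 hZ hκ0 hℓ hNC σ a lo Λ hb (fun _ => u)
      (fun _ => hu) (fun i _ => ⟨fun _ => rfl, fun _ => rfl⟩)
    refine ⟨W, h1, h2, h3, h4.trans ?_⟩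
    have h5 : (nfull σ a ℓ J Λ : ℝ) ≤ 2 * R := by exact_mod_cast hN
    have h6 : (nfull σ a ℓ J Λ : ℝ) * (Zm * ℓ) ≤ (2 * R) * (Zm * ℓ) := mul_le_mul_of_nonneg_right h5 hZℓ
    nlinarith [h6, hZℓ]
  · obtain ⟨qa, hqaΛ, hqa⟩ := nfull_ivt σ a ℓ J Λ R (by omega)
    obtain ⟨qb, hqbΛ, hqb⟩ := nfull_ivt σ a ℓ J Λ (nfull σ a ℓ J Λ - R) (by omega)
    have hqab : qa ≤ qb := by
      by_contra h
      push Not at h
      have := nfull_mono σ a ℓ J h.le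
      omega
    have hb1b2 : a + qa * ℓ ≤ a + qb * ℓ := Nat.add_le_add_left (Nat.mul_le_mul_right _ hqab) _
    have hb2e : a + qb * ℓ ≤ a + Λ * ℓ := Nat.add_le_add_left (Nat.mul_le_mul_right _ hqbΛ) _
    have hend : a + qb * ℓ + (Λ - qb) * ℓ = a + Λ * ℓ := by
      rw [Nat.add_assoc, ← Nat.add_mul, Nat.add_sub_cancel' hqbΛ]
    obtain ⟨e, he, hcost⟩ := hCOSTC σ (a + qa * ℓ) (a + qb * ℓ) lo (J + 1) hb1b2
      (fun t h1 h2 => hlo t (by omega) (by omega))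
    obtain ⟨c, hc1, hc2, hc3⟩ := hNL ι r d hd hw z hz (J + 1) e (u lo) (by omega)
    obtain ⟨v, hv1, -, hv2⟩ := hEXT ι r Set.univ
      (fun x _ => by
        obtain ⟨y, hy⟩ := hw.exists_out hd x
        exact ⟨y, Set.mem_univ _, hy⟩)
      (fun x _ => by
        obtain ⟨y, hy⟩ := hw.exists_in hd x
        exact ⟨y, Set.mem_univ _, hy⟩)
      (J + 1) c (fun _ _ => Set.mem_univ _) hc1 lo
    have hv0 : v lo = c 0 := by
      have := hv2 0 (by omega)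
      simpa using this
    have hconn : Conn r (J + 1) (u lo) (v lo) := by
      rw [hv0]
      exact hc2
    have hconn' : Conn r (J + 1) (v lo) (u lo) :=
      (hSTAR ι r (hw.exists_out hd) (hw.exists_in hd) (J + 1)).1 _ _ hconn
    obtain ⟨U, hU1, hU2, hU3, hU4⟩ := hR u v lo hu hv1 hconn
    obtain ⟨U', hU1', hU2', hU3', hU4'⟩ := hR v u lo hv1 hu hconn'
    have hcast : ((J + 1 : ℕ) : ℤ) = (J : ℤ) + 1 := by push_cast; ring
    -- phase 1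
    obtain ⟨W1, h11, h12, h13, h14⟩ := hPH ι r z κ Zm ℓ J hz.1 hZ hκ0 hℓ hNC σ a lo qa
      (fun t h1 h2 => by
        have h3 := hlo t h1 (by omega)
        rw [hcast] at h3
        exact h3) U hU1
      (fun i hi => by
        rw [hqa] at hi
        have h3 := hU4 i hi
        rw [hcast] at h3
        exact h3)
    rw [hqa] at h13 h14
    -- phase 3
    have hnf3 : nfull σ (a + qb * ℓ) ℓ J (Λ - qb) = R := by
      have h1 := nfull_add σ a ℓ J qb (Λ - qb)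
      rw [Nat.add_sub_cancel' hqbΛ] at h1
      omega
    obtain ⟨W3, h31, h32, h33, h34⟩ := hPH ι r z κ Zm ℓ J hz.1 hZ hκ0 hℓ hNC σ (a + qb * ℓ) lo (Λ - qb)
      (fun t h1 h2 => by
        have h3 := hlo t (by omega) (by omega)
        rw [hcast] at h3
        exact h3) U' hU1'
      (fun i hi => by
        rw [hnf3] at hi
        have h3 := hU4' i hi
        rw [hcast] at h3
        exact h3)
    rw [hnf3] at h33 h34
    rw [hend] at h31 h33 h34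
    -- phase 2
    have hW2 := walk_dir hv1 σ (a + qa * ℓ) (a + qb * ℓ)
    have e12 : W1 (a + qa * ℓ) = (fun t => v (ht σ t)) (a + qa * ℓ) := by
      rw [h13]
      have h3 := hlo (a + qa * ℓ) (by omega) (by omega)
      exact hU3 _ h3.1 h3.2
    have e23 : (fun t => v (ht σ t)) (a + qb * ℓ) = W3 (a + qb * ℓ) := by
      rw [h32, hU2']
    obtain ⟨W12, g1, g2, g3⟩ := cat (by omega : a ≤ a + qa * ℓ) hb1b2 h11 hW2 e12
    have e23' : W12 (a + qb * ℓ) = W3 (a + qb * ℓ) := by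
      rw [g3 _ hb1b2]
      exact e23
    obtain ⟨W, k1, k2, k3⟩ := cat (by omega : a ≤ a + qb * ℓ) hb2e g1 h31 e23'
    refine ⟨W, k1, ?_, ?_, ?_⟩
    · rw [k2 a (by omega), g2 a (by omega), h12, hU2]
    · rw [k3 _ hb2e, h33]
      have h3 := hlo (a + Λ * ℓ) (by omega) le_rfl
      exact hU3' _ h3.1 h3.2
    · rw [cat_cost (by omega : a ≤ a + qb * ℓ) hb2e k2 k3, cat_cost (by omega : a ≤ a + qa * ℓ) hb1b2 g2 g3]
      -- cost of phase 2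
      have hp2 : 2 * cost z (fun t => v (ht σ t)) (a + qa * ℓ) (a + qb * ℓ) ≤
          2 * (((qb : ℝ) - qa) * ℓ) + Zm := by
        have h1 := hcost (fun t => z (v t))
        have h2 : (∑ i ∈ range (J + 1), (e i : ℝ) * (z (v (lo + i)) + z (v (lo + i + 1)))) =
            ∑ i ∈ range (J + 1), (e i : ℝ) * (z (c i) + z (c (i + 1))) := by
          refine Finset.sum_congr rfl fun i hi => ?_
          rw [Finset.mem_range] at hi
          have q1 := hv2 i (by omega)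
          have q2 := hv2 (i + 1) (by omega)
          have q3 : lo + ((i + 1 : ℕ) : ℤ) = lo + (i : ℤ) + 1 := by push_cast; ring
          rw [q3] at q2
          rw [q1, q2]
        have h3 : (∑ i ∈ range (J + 1), (e i : ℝ)) = ((qb : ℝ) - qa) * ℓ := by
          have h4 : ((∑ i ∈ range (J + 1), e i : ℕ) : ℝ) = ((a + qb * ℓ - (a + qa * ℓ) : ℕ) : ℝ) := by
            rw [he]
          rw [Nat.cast_sum, Nat.cast_sub hb1b2] at h4
          rw [h4]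
          push_cast
          ring
        have h5 : cost z (fun t => v (ht σ t)) (a + qa * ℓ) (a + qb * ℓ) =
            ∑ t ∈ Finset.Ico (a + qa * ℓ) (a + qb * ℓ), z (v (ht σ (t + 1))) := rfl
        rw [h5]
        have h6 := hZ (v (ht σ (a + qb * ℓ)))
        have h7 := hz.1 (v (ht σ (a + qa * ℓ)))
        have h1' : 2 * ∑ t ∈ Finset.Ico (a + qa * ℓ) (a + qb * ℓ), z (v (ht σ (t + 1))) =
            (∑ i ∈ range (J + 1), (e i : ℝ) * (z (v (lo + i)) + z (v (lo + i + 1)))) +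
              z (v (ht σ (a + qb * ℓ))) - z (v (ht σ (a + qa * ℓ))) := h1
        rw [h2] at h1'
        rw [h3] at hc3
        linarith
      have hq1 : (qa : ℝ) ≤ qb := by exact_mod_cast hqab
      have hsub : ((Λ - qb : ℕ) : ℝ) = (Λ : ℝ) - qb := Nat.cast_sub hqbΛ
      rw [hsub] at h34
      have hmid : ((qb : ℝ) - qa) * ℓ ≤ ((qb : ℝ) - qa) * κ :=
        mul_le_mul_of_nonneg_left hκ (by linarith)
      have hZℓ' : Zm ≤ Zm * ℓ := by nlinarith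
      have hfin : (Λ : ℝ) * κ + (2 * R + 1) * Zm * ℓ =
          (qa * κ + R * Zm * ℓ) + (((qb : ℝ) - qa) * κ + Zm * ℓ) + (((Λ : ℝ) - qb) * κ + R * Zm * ℓ) := by
        ring
      rw [hfin]
      linarith

theorem st_STEP (hPH : ST_PH) (hSW : ST_SW) (hNL : ST_NL) (hEXT : ST_EXT) (hCOSTC : ST_COSTC)
    (hSTAR : ST_STAR) : ST_STEP := by
  intro ι _ _ r J hJ η hη
  by_cases hex : ∃ d : ℝ, 0 < d ∧ Wt r d
  swap
  · refine ⟨1, le_rfl, fun d hd hw => ?_⟩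
    exact absurd ⟨d, hd, hw⟩ hex
  · obtain ⟨d0, hd0, hw0⟩ := hex
    obtain ⟨ℓ', hℓ', hN⟩ := hJ (η / 2) (by linarith)
    obtain ⟨R, hR⟩ := hSW ι r (hw0.exists_out hd0) (hw0.exists_in hd0) (J + 1)
    obtain ⟨Λ, hΛ⟩ := exists_nat_ge ((2 * (R : ℝ) + 1) * (2 * (Fintype.card ι : ℝ)) / (η / 2))
    have hη2 : 0 < η / 2 := by linarith
    have hΛ2 : (2 * (R : ℝ) + 1) * (2 * (Fintype.card ι : ℝ)) ≤ (Λ : ℝ) * (η / 2) :=
      (div_le_iff₀ hη2).1 hΛ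
    have hcard : (0 : ℝ) < (Fintype.card ι : ℝ) := by exact_mod_cast Fintype.card_pos
    have hR0 : (0 : ℝ) ≤ (R : ℝ) := Nat.cast_nonneg R
    have hΛ1 : 1 ≤ Λ := by
      rcases Nat.eq_zero_or_pos Λ with h | h
      · rw [h] at hΛ2
        exfalso
        have : 0 < (2 * (R : ℝ) + 1) * (2 * (Fintype.card ι : ℝ)) := by positivity
        simp only [Nat.cast_zero, zero_mul] at hΛ2
        linarith
      · exact h
    refine ⟨Λ * ℓ', Nat.one_le_iff_ne_zero.2 (Nat.mul_ne_zero (by omega) (by omega)), ?_⟩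
    intro d hd hw z hz σ u a hu hRg
    have hℓ1 : (1 : ℝ) ≤ (ℓ' : ℝ) := by exact_mod_cast hℓ'
    have hdc : d ≤ Fintype.card ι := hw.toO.le_card
    obtain ⟨W, h1, h2, h3, h4⟩ := step_core hPH hNL hEXT hCOSTC hSTAR r J d hd hw z hz
      ((1 + η / 2) * ℓ') (2 * d) ℓ' hz.le (by linarith) (by nlinarith) hℓ' (hN d hd hw z hz) R hR Λ σ u a hu hRg
    refine ⟨W, h1, h2, h3, h4.trans ?_⟩
    push_cast
    have h5 : (2 * (R : ℝ) + 1) * (2 * d) ≤ (2 * (R : ℝ) + 1) * (2 * (Fintype.card ι : ℝ)) :=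
      mul_le_mul_of_nonneg_left (by linarith) (by linarith)
    have h6 : (2 * (R : ℝ) + 1) * (2 * d) * ℓ' ≤ (Λ : ℝ) * (η / 2) * ℓ' :=
      mul_le_mul_of_nonneg_right (h5.trans hΛ2) (by linarith)
    linarith [h6]

end Pool.Agent.Helper34.ST
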